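import Mathlib

namespace Pool.Agent.Results.MP_c3cac0_an.Diameter

open Finset

lemma key (x t : ℝ) (hx : 0 ≤ x) (ht : t ≠ 0) (h1 : |t| < 1) (hx1 : x < 1) (hxt : 0 < t → x < t) :
    |(x - t) / (1 - t * x)| ≤ |t| * Real.exp (x * (t - 1 / t)) := by
  have hz : 0 < 1 - t * x := by
    have := abs_lt.1 h1
    nlinarith [this.1, this.2]
  have hy : 0 ≤ 1 - x / t := by
    rcases lt_or_gt_of_ne ht with h | h
    · have : x / t ≤ 0 := div_nonpos_of_nonneg_of_nonpos hx h.le
      linarith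
    · have : x / t ≤ 1 := (div_le_one h).2 (hxt h).le
      linarith
  have e1 : |x - t| = |t| * (1 - x / t) := by
    rw [← abs_of_nonneg hy, ← abs_mul, ← abs_neg]; congr 1; field_simp; ring
  have t2 : t ^ 2 ≤ 1 := by nlinarith [abs_lt.1 h1, sq_abs t, abs_nonneg t]
  have hp : 0 ≤ (t * x) * (x / t - t * x) := by
    have : (t * x) * (x / t - t * x) = x ^ 2 * (1 - t ^ 2) := by field_simp
    rw [this]; exact mul_nonneg (sq_nonneg x) (by linarith)
  have he := Real.add_one_le_exp (x * (t - 1 / t))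
  have e2 : x * (t - 1 / t) = t * x - x / t := by ring
  rw [abs_div, abs_of_pos hz, e1, div_le_iff₀ hz, mul_assoc]
  apply mul_le_mul_of_nonneg_left _ (abs_nonneg t)
  rw [e2] at he ⊢
  nlinarith [mul_le_mul_of_nonneg_right he hz.le]

lemma aux (m : ℕ) (hm : 1 ≤ m) (t : Fin m → ℝ) (u : ℂ) (hu : ‖u‖ = 1)
    (ht : ∀ k, t k ≠ 0 ∧ |t k| < 1) (hs : ∑ k, (t k - 1 / t k) ≤ 0) (τ : Fin m → ℂ)
    (hτ : ∀ k, τ k = t k * u) :
    ∃ ζ : ℂ, ‖ζ‖ < 1 ∧
        deriv (fun z : ℂ => z * ∏ k, (z - τ k) / (1 - starRingEnd ℂ (τ k) * z)) ζ = 0 ∧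
        ‖ζ * ∏ k, (ζ - τ k) / (1 - starRingEnd ℂ (τ k) * ζ)‖ ≤
          ‖deriv (fun z : ℂ => z * ∏ k, (z - τ k) / (1 - starRingEnd ℂ (τ k) * z)) 0‖ * ‖ζ‖ := by
  have hne : (univ.filter fun k => 0 < t k).Nonempty := by
    by_contra h
    rw [Finset.not_nonempty_iff_eq_empty, Finset.filter_eq_empty_iff] at h
    have : 0 < ∑ k, (t k - 1 / t k) := by
      apply Finset.sum_pos _ ⟨⟨0, hm⟩, mem_univ _⟩
      intro k _
      have h0 : t k < 0 := lt_of_le_of_ne (not_lt.1 (h (mem_univ k))) (ht k).1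
      have h1 := (abs_lt.1 (ht k).2).1
      have : 1 / t k < -1 := by rw [div_lt_iff_of_neg h0]; linarith
      linarith
    linarith
  obtain ⟨k0, hk0, hmin⟩ := Finset.exists_min_image _ t hne
  have a0 : 0 < t k0 := (mem_filter.1 hk0).2
  have a1 : t k0 < 1 := (abs_lt.1 (ht k0).2).2
  have uu : starRingEnd ℂ u * u = 1 := by
    rw [mul_comm, Complex.mul_conj, Complex.normSq_eq_norm_sq, hu]; simp
  have u0 : u ≠ 0 := by rintro rfl; simp at hu
  have den : ∀ x : ℝ, |x| < 1 → ∀ k, 1 - t k * x ≠ 0 := by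
    intro x hx k
    have : |t k * x| < 1 := by
      rw [abs_mul]; exact mul_lt_one_of_nonneg_of_lt_one_left (abs_nonneg _) (ht k).2 hx.le
    have := (abs_lt.1 this).2
    linarith
  have fac : ∀ (x : ℝ) k, ((x : ℂ) * u - τ k) / (1 - starRingEnd ℂ (τ k) * (x * u))
      = u * (((x - t k) / (1 - t k * x) : ℝ) : ℂ) := by
    intro x k
    have : starRingEnd ℂ (τ k) * (x * u) = t k * x := by
      rw [hτ k, map_mul, Complex.conj_ofReal]
      linear_combination (t k : ℂ) * x * uu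
    rw [this, hτ k]; push_cast; ring
  have dg : ∀ x : ℝ, |x| < 1 → DifferentiableAt ℂ
      (fun z : ℂ => ∏ k, (z - τ k) / (1 - starRingEnd ℂ (τ k) * z)) (x * u) := by
    intro x hx
    apply DifferentiableAt.fun_finset_prod
    intro k _
    apply DifferentiableAt.div (by fun_prop) (by fun_prop)
    have : starRingEnd ℂ (τ k) * (x * u) = t k * x := by
      rw [hτ k, map_mul, Complex.conj_ofReal]
      linear_combination (t k : ℂ) * x * uu
    rw [this]
    exact_mod_cast den x hx k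
  let b : ℝ → ℝ := fun x => x * ∏ k, (x - t k) / (1 - t k * x)
  have db : ∀ x : ℝ, |x| < 1 → DifferentiableAt ℝ b x := by
    intro x hx
    apply DifferentiableAt.mul differentiableAt_id
    apply DifferentiableAt.fun_finset_prod
    intro k _
    exact DifferentiableAt.div (by fun_prop) (by fun_prop) (den x hx k)
  obtain ⟨x, ⟨x0, x1⟩, hx⟩ := exists_deriv_eq_zero (f := b) a0
    (fun y hy => (db y (by rw [abs_lt]; constructor <;> linarith [hy.1, hy.2])).continuousAt.continuousWithinAt)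
    (by
      simp only [b, zero_mul]
      rw [Finset.prod_eq_zero (mem_univ k0) (by simp), mul_zero])
  have xa : |x| < 1 := by rw [abs_lt]; constructor <;> linarith
  have nz : ‖(x : ℂ) * u‖ = x := by rw [norm_mul, hu, Complex.norm_real, Real.norm_eq_abs, abs_of_pos x0, mul_one]
  refine ⟨x * u, by rw [nz]; linarith, ?_, ?_⟩
  · have h1 := (differentiableAt_id.mul (dg x xa)).hasDerivAt
    have h2 : HasDerivAt (fun w : ℂ => w * u) u (x : ℂ) := by
      simpa using (hasDerivAt_id (x : ℂ)).mul_const u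
    have h3 := (h1.comp (x : ℂ) h2).comp_ofReal
    have h4 : HasDerivAt (fun y : ℝ => u ^ (m + 1) * ((b y : ℝ) : ℂ)) (u ^ (m + 1) * ((0 : ℝ) : ℂ)) x := by
      have := (db x xa).hasDerivAt
      rw [hx] at this
      exact this.ofReal_comp.const_mul _
    have h5 : (fun y : ℝ => u ^ (m + 1) * ((b y : ℝ) : ℂ)) = fun y : ℝ =>
        (y : ℂ) * u * ∏ k, ((y : ℂ) * u - τ k) / (1 - starRingEnd ℂ (τ k) * (y * u)) := by
      funext y
      simp only [fac, b, Finset.prod_mul_distrib, Finset.prod_const, Finset.card_univ, Fintype.card_fin]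
      push_cast; ring
    rw [h5] at h4
    have h6 := h3.unique h4
    simp only [Complex.ofReal_zero, mul_zero, mul_eq_zero, u0, or_false] at h6
    exact h6
  · have g0 := dg 0 (by simp)
    simp only [Complex.ofReal_zero, zero_mul] at g0
    have h1 := ((hasDerivAt_id (0 : ℂ)).mul g0.hasDerivAt).deriv
    have h2 : deriv (fun z : ℂ => z * ∏ k, (z - τ k) / (1 - starRingEnd ℂ (τ k) * z)) 0
        = ∏ k, (-τ k) := by
      refine h1.trans ?_
      simp
    rw [h2, norm_mul, mul_comm]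
    apply mul_le_mul_of_nonneg_right _ (norm_nonneg _)
    simp only [fac]
    simp only [norm_prod, norm_mul, hu, one_mul, Complex.norm_real, Real.norm_eq_abs, norm_neg,
      hτ, mul_one]
    calc ∏ k, |(x - t k) / (1 - t k * x)| ≤ ∏ k, (|t k| * Real.exp (x * (t k - 1 / t k))) := by
          apply Finset.prod_le_prod (fun k _ => abs_nonneg _)
          intro k _
          exact key x (t k) x0.le (ht k).1 (ht k).2 (by linarith)
            (fun h => lt_of_lt_of_le x1 (hmin k (mem_filter.2 ⟨mem_univ _, h⟩)))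
      _ = (∏ k, |t k|) * Real.exp (x * ∑ k, (t k - 1 / t k)) := by
          rw [Finset.prod_mul_distrib, ← Real.exp_sum, Finset.mul_sum]
      _ ≤ ∏ k, |t k| := by
          apply mul_le_of_le_one_right (Finset.prod_nonneg fun k _ => abs_nonneg _)
          exact Real.exp_le_one_iff.2 (mul_nonpos_of_nonneg_of_nonpos x0.le hs)

theorem result :
    ∀ m : ℕ, 1 ≤ m → ∀ τ : Fin m → ℂ, (∀ k, τ k ≠ 0 ∧ ‖τ k‖ < 1) →
      (∃ u : ℂ, ‖u‖ = 1 ∧ ∀ k, ∃ t : ℝ, τ k = t * u) →
      ∃ ζ : ℂ, ‖ζ‖ < 1 ∧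
        deriv (fun z : ℂ => z * ∏ k, (z - τ k) / (1 - starRingEnd ℂ (τ k) * z)) ζ = 0 ∧
        ‖ζ * ∏ k, (ζ - τ k) / (1 - starRingEnd ℂ (τ k) * ζ)‖ ≤
          ‖deriv (fun z : ℂ => z * ∏ k, (z - τ k) / (1 - starRingEnd ℂ (τ k) * z)) 0‖ * ‖ζ‖ := by
  rintro m hm τ hτ ⟨u, hu, ht⟩
  choose t ht using ht
  have h1 : ∀ k, t k ≠ 0 ∧ |t k| < 1 := by
    intro k
    obtain ⟨a, b⟩ := hτ k
    rw [ht k] at a b
    refine ⟨fun h => a (by simp [h]), ?_⟩
    rwa [norm_mul, hu, mul_one, Complex.norm_real, Real.norm_eq_abs] at b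
  rcases le_total (∑ k, (t k - 1 / t k)) 0 with hs | hs
  · exact aux m hm t u hu h1 hs τ ht
  · refine aux m hm (fun k => -t k) (-u) (by simpa using hu)
      (fun k => ⟨neg_ne_zero.2 (h1 k).1, by simpa using (h1 k).2⟩) ?_ τ
      (fun k => by rw [ht k]; push_cast; ring)
    have : ∑ k, (-t k - 1 / -t k) = -∑ k, (t k - 1 / t k) := by
      rw [← Finset.sum_neg_distrib]
      exact Finset.sum_congr rfl fun k _ => by ring
    rw [this]; linarith

end Pool.Agent.Results.MP_c3cac0_an.Diameter
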